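import Mathlib

set_option autoImplicit false

/-!
# Cores of infeasible list colourings with lists of size at most two
-/

namespace Pool.Agent.Helper18.Crit

open Finset

variable {V : Type*} [DecidableEq V]

/-- `χ` is proper on the set `K` of pairs. -/
def PropOn (K : Finset (Sym2 V)) (χ : V → Fin 3) : Prop :=
  ∀ u w, s(u, w) ∈ K → χ u ≠ χ w

omit [DecidableEq V] in
theorem PropOn.mono {K K' : Finset (Sym2 V)} {χ : V → Fin 3} (h : PropOn K' χ) (hK : K ⊆ K') :
    PropOn K χ := fun u w huw => h u w (hK huw)

/-- Contradiction reached by propagating `χ v0 = a` inside `W`. -/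
def Contra (G : SimpleGraph V) (W : Finset V) (L : V → Finset (Fin 3)) (v0 : V) (a : Fin 3) :
    Prop :=
  ∃ (K : Finset (Sym2 V)) (T : Finset V), (∀ e ∈ K, e ∈ G.edgeSet) ∧ K.card ≤ W.card + 1 ∧
    T ⊆ W ∧ T.card ≤ 1 ∧ (∀ t ∈ T, (L t).card = 1) ∧
    ∀ χ : V → Fin 3, PropOn K χ → χ v0 = a → (∀ u ∈ W, (L u).card = 2 → χ u ∈ L u) →
      (∀ t ∈ T, χ t ∈ L t) → False

/-- A closed consistent partial assignment. -/
def Closed (G : SimpleGraph V) (W : Finset V) (L : V → Finset (Fin 3)) (v0 : V) : Prop :=
  ∃ (D : Finset V) (α : V → Fin 3), v0 ∈ D ∧ D ⊆ W ∧ (∀ u ∈ D, α u ∈ L u) ∧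
    (∀ u ∈ D, ∀ w ∈ D, G.Adj u w → α u ≠ α w) ∧
    ∀ u ∈ D, ∀ w ∈ W, w ∉ D → G.Adj u w → α u ∉ L w

theorem grow (G : SimpleGraph V) (W : Finset V) (L : V → Finset (Fin 3))
    (hL : ∀ v ∈ W, 1 ≤ (L v).card ∧ (L v).card ≤ 2) (v0 : V) (a : Fin 3) :
    ∀ (m : ℕ) (D : Finset V) (α : V → Fin 3) (K : Finset (Sym2 V)), W.card - D.card = m →
      v0 ∈ D → D ⊆ W → (∀ e ∈ K, e ∈ G.edgeSet) → K.card + 1 ≤ D.card →
      (∀ u ∈ D, u ≠ v0 → (L u).card = 2) → (∀ u ∈ D, α u ∈ L u) →
      (∀ u ∈ D, ∀ w ∈ D, G.Adj u w → α u ≠ α w) →
      (∀ χ : V → Fin 3, PropOn K χ → χ v0 = a → (∀ u ∈ W, (L u).card = 2 → χ u ∈ L u) →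
        ∀ u ∈ D, χ u = α u) →
      Contra G W L v0 a ∨ Closed G W L v0 := by
  intro m
  induction m using Nat.strong_induction_on with
  | _ m ih =>
    intro D α K hm hv0 hDW hKG hKD hD2 hαL hαp hχ
    by_cases hcl : ∀ u ∈ D, ∀ w ∈ W, w ∉ D → G.Adj u w → α u ∉ L w
    · exact Or.inr ⟨D, α, hv0, hDW, hαL, hαp, hcl⟩
    · push Not at hcl
      obtain ⟨u, hu, w, hw, hwD, huw, hin⟩ := hcl
      have hDW1 : D.card + 1 ≤ W.card := by
        have : insert w D ⊆ W := Finset.insert_subset hw hDW
        have := Finset.card_le_card this
        rwa [Finset.card_insert_of_notMem hwD] at this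
      have hKG' : ∀ e ∈ insert s(u, w) K, e ∈ G.edgeSet := by
        intro e he
        rcases Finset.mem_insert.1 he with rfl | he
        · exact huw
        · exact hKG e he
      have hKc : (insert s(u, w) K).card ≤ K.card + 1 := Finset.card_insert_le _ _
      rcases Nat.lt_or_ge (L w).card 2 with h1 | h2
      · -- a unit vertex is violated
        have hw1 : (L w).card = 1 := le_antisymm (by omega) (hL w hw).1
        left
        refine ⟨insert s(u, w) K, {w}, hKG', by omega, by simpa using hw, by simp, ?_, ?_⟩
        · intro t ht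
          rw [Finset.mem_singleton] at ht
          rw [ht]; exact hw1
        · intro χ hp h0 h2' hT
          have h3 := hχ χ (hp.mono (Finset.subset_insert _ _)) h0 h2' u hu
          have h4 := hT w (Finset.mem_singleton_self w)
          obtain ⟨b, hb⟩ := Finset.card_eq_one.1 hw1
          rw [hb, Finset.mem_singleton] at h4 hin
          refine hp u w (Finset.mem_insert_self _ _) ?_
          rw [h3, h4, hin]
      · have hw2 : (L w).card = 2 := le_antisymm (hL w hw).2 h2
        obtain ⟨q, hq, hqu, hLw⟩ : ∃ q, q ∈ L w ∧ q ≠ α u ∧ ∀ c ∈ L w, c ≠ α u → c = q := by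
          obtain ⟨x, y, hxy, hxyL⟩ := Finset.card_eq_two.1 hw2
          rw [hxyL, Finset.mem_insert, Finset.mem_singleton] at hin
          rcases hin with hx | hy
          · refine ⟨y, by rw [hxyL]; simp, by rw [hx]; exact hxy.symm, ?_⟩
            intro c hc hc'
            rw [hxyL, Finset.mem_insert, Finset.mem_singleton] at hc
            rcases hc with hc | hc
            · exact absurd (hc.trans hx.symm) hc'
            · exact hc
          · refine ⟨x, by rw [hxyL]; simp, by rw [hy]; exact hxy, ?_⟩
            intro c hc hc'
            rw [hxyL, Finset.mem_insert, Finset.mem_singleton] at hc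
            rcases hc with hc | hc
            · exact hc
            · exact absurd (hc.trans hy.symm) hc'
        by_cases hconf : ∃ u' ∈ D, G.Adj u' w ∧ α u' = q
        · obtain ⟨u', hu', hu'w, hu'q⟩ := hconf
          left
          refine ⟨insert s(u', w) (insert s(u, w) K), ∅, ?_, ?_, by simp, by simp, by simp, ?_⟩
          · intro e he
            rcases Finset.mem_insert.1 he with rfl | he
            · exact hu'w
            · exact hKG' e he
          · have := Finset.card_insert_le s(u', w) (insert s(u, w) K)
            omega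
          · intro χ hp h0 h2' _
            have hp' : PropOn K χ := hp.mono fun e he =>
              Finset.mem_insert_of_mem (Finset.mem_insert_of_mem he)
            have h3 := hχ χ hp' h0 h2' u hu
            have h3' := hχ χ hp' h0 h2' u' hu'
            have h4 := h2' w hw hw2
            have h5 : χ w ≠ α u := by
              intro h
              exact hp u w (Finset.mem_insert_of_mem (Finset.mem_insert_self _ _)) (by rw [h3, h])
            have h6 := hLw _ h4 h5
            exact hp u' w (Finset.mem_insert_self _ _) (by rw [h3', h6, hu'q])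
        · push Not at hconf
          refine ih (W.card - (insert w D).card) ?_ (insert w D) (Function.update α w q)
            (insert s(u, w) K) rfl (Finset.mem_insert_of_mem hv0)
            (Finset.insert_subset hw hDW) hKG' ?_ ?_ ?_ ?_ ?_
          · rw [Finset.card_insert_of_notMem hwD]; omega
          · rw [Finset.card_insert_of_notMem hwD]; omega
          · intro x hx hx0
            rcases Finset.mem_insert.1 hx with rfl | hx
            · exact hw2
            · exact hD2 x hx hx0
          · intro x hx
            rcases Finset.mem_insert.1 hx with rfl | hx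
            · rw [Function.update_self]; exact hq
            · have hxw : x ≠ w := fun h => hwD (h ▸ hx)
              rw [Function.update_of_ne hxw]; exact hαL x hx
          · intro x hx y hy hxy
            rcases Finset.mem_insert.1 hx with hx | hx
            · rcases Finset.mem_insert.1 hy with hy | hy
              · exact absurd (hx.trans hy.symm) hxy.ne
              · have hyw : y ≠ w := fun h => hwD (h ▸ hy)
                rw [hx, Function.update_self, Function.update_of_ne hyw]
                exact fun h => hconf y hy (by rw [← hx]; exact hxy.symm) h.symm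
            · have hxw : x ≠ w := fun h => hwD (h ▸ hx)
              rcases Finset.mem_insert.1 hy with hy | hy
              · rw [hy, Function.update_self, Function.update_of_ne hxw]
                exact fun h => hconf x hx (by rw [← hy]; exact hxy) h
              · have hyw : y ≠ w := fun h => hwD (h ▸ hy)
                rw [Function.update_of_ne hxw, Function.update_of_ne hyw]
                exact hαp x hx y hy hxy
          · intro χ hp h0 h2' x hx
            have hp' : PropOn K χ := hp.mono (Finset.subset_insert _ _)
            rcases Finset.mem_insert.1 hx with rfl | hx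
            · rw [Function.update_self]
              refine hLw _ (h2' x hw hw2) ?_
              intro h
              exact hp u x (Finset.mem_insert_self _ _) (by rw [hχ χ hp' h0 h2' u hu, h])
            · have hxw : x ≠ w := fun h => hwD (h ▸ hx)
              rw [Function.update_of_ne hxw]
              exact hχ χ hp' h0 h2' x hx

/-- Propagation from a single value. -/
theorem grow_start (G : SimpleGraph V) (W : Finset V) (L : V → Finset (Fin 3))
    (hL : ∀ v ∈ W, 1 ≤ (L v).card ∧ (L v).card ≤ 2) (v0 : V) (hv0 : v0 ∈ W) (a : Fin 3)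
    (ha : a ∈ L v0) : Contra G W L v0 a ∨ Closed G W L v0 := by
  refine grow G W L hL v0 a (W.card - 1) {v0} (fun _ => a) ∅ (by simp) (by simp)
    (by simpa using hv0) (by simp) (by simp) ?_ ?_ ?_ ?_
  · intro u hu hu0
    exact absurd (Finset.mem_singleton.1 hu) hu0
  · intro u hu
    rw [Finset.mem_singleton.1 hu]; exact ha
  · intro u hu w hw huw
    rw [Finset.mem_singleton.1 hu, Finset.mem_singleton.1 hw] at huw
    exact absurd rfl huw.ne
  · intro χ _ h0 _ u hu
    rw [Finset.mem_singleton.1 hu]; exact h0

/-- **Core lemma.** An infeasible list colouring instance with lists of size one or two has a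
core with few edges which uses at most two of the lists of size one. -/
theorem core (G : SimpleGraph V) (L : V → Finset (Fin 3)) :
    ∀ (m : ℕ) (W : Finset V), W.card = m → (∀ v ∈ W, 1 ≤ (L v).card ∧ (L v).card ≤ 2) →
      (∀ α : V → Fin 3, (∀ v ∈ W, α v ∈ L v) → ¬ ∀ u ∈ W, ∀ w ∈ W, G.Adj u w → α u ≠ α w) →
      ∃ (K : Finset (Sym2 V)) (T : Finset V), (∀ e ∈ K, e ∈ G.edgeSet) ∧
        K.card ≤ 2 * (W.card + 1) ∧ T ⊆ W ∧ T.card ≤ 2 ∧ (∀ t ∈ T, (L t).card = 1) ∧
        ∀ χ : V → Fin 3, PropOn K χ → (∀ u ∈ W, (L u).card = 2 → χ u ∈ L u) →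
          (∀ t ∈ T, χ t ∈ L t) → False := by
  intro m
  induction m using Nat.strong_induction_on with
  | _ m ih =>
    intro W hWm hL hno
    -- the reduction to a smaller set
    have red : ∀ v0 ∈ W, Closed G W L v0 →
        ∃ (K : Finset (Sym2 V)) (T : Finset V), (∀ e ∈ K, e ∈ G.edgeSet) ∧
        K.card ≤ 2 * (W.card + 1) ∧ T ⊆ W ∧ T.card ≤ 2 ∧ (∀ t ∈ T, (L t).card = 1) ∧
        ∀ χ : V → Fin 3, PropOn K χ → (∀ u ∈ W, (L u).card = 2 → χ u ∈ L u) →
          (∀ t ∈ T, χ t ∈ L t) → False := by
      rintro v0 hv0 ⟨D, α, hv0D, hDW, hαL, hαp, hcl⟩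
      have hlt : (W \ D).card < m := by
        rw [← hWm]
        exact Finset.card_lt_card (Finset.sdiff_ssubset hDW ⟨v0, hv0D⟩)
      obtain ⟨K, T, hK, hKc, hT, hTc, hT1, hχ⟩ := ih _ hlt (W \ D) rfl
        (fun v hv => hL v (Finset.mem_sdiff.1 hv).1) (by
          intro β hβ hβp
          refine hno (fun v => if v ∈ D then α v else β v) ?_ ?_
          · intro v hv
            by_cases hvD : v ∈ D
            · simp only [hvD, if_true]; exact hαL v hvD
            · simp only [hvD, if_false]; exact hβ v (Finset.mem_sdiff.2 ⟨hv, hvD⟩)
          · intro u hu w hw huw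
            by_cases huD : u ∈ D
            · by_cases hwD : w ∈ D
              · simp only [huD, hwD, if_true]; exact hαp u huD w hwD huw
              · simp only [huD, hwD, if_true, if_false]
                intro h
                exact hcl u huD w hw hwD huw (h ▸ hβ w (Finset.mem_sdiff.2 ⟨hw, hwD⟩))
            · by_cases hwD : w ∈ D
              · simp only [huD, hwD, if_true, if_false]
                intro h
                exact hcl w hwD u hu huD huw.symm (h ▸ hβ u (Finset.mem_sdiff.2 ⟨hu, huD⟩))
              · simp only [huD, hwD, if_false]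
                exact hβp u (Finset.mem_sdiff.2 ⟨hu, huD⟩) w (Finset.mem_sdiff.2 ⟨hw, hwD⟩) huw)
      refine ⟨K, T, hK, ?_, hT.trans Finset.sdiff_subset, hTc, hT1, ?_⟩
      · have : (W \ D).card ≤ W.card := Finset.card_le_card Finset.sdiff_subset
        omega
      · intro χ hp h2 h1
        exact hχ χ hp (fun u hu hu2 => h2 u (Finset.mem_sdiff.1 hu).1 hu2) h1
    by_cases hunit : ∃ t ∈ W, (L t).card = 1
    · obtain ⟨t, ht, ht1⟩ := hunit
      obtain ⟨a, ha⟩ := Finset.card_eq_one.1 ht1
      rcases grow_start G W L hL t ht a (by rw [ha]; simp) with hc | hc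
      · obtain ⟨K, T, hK, hKc, hT, hTc, hT1, hχ⟩ := hc
        refine ⟨K, insert t T, hK, by omega, Finset.insert_subset ht hT, ?_, ?_, ?_⟩
        · have := Finset.card_insert_le t T
          omega
        · intro s hs
          rcases Finset.mem_insert.1 hs with rfl | hs
          · exact ht1
          · exact hT1 s hs
        · intro χ hp h2 h1
          refine hχ χ hp ?_ h2 (fun s hs => h1 s (Finset.mem_insert_of_mem hs))
          have := h1 t (Finset.mem_insert_self _ _)
          rwa [ha, Finset.mem_singleton] at this
      · exact red t ht hc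
    · push Not at hunit
      have h2 : ∀ v ∈ W, (L v).card = 2 := by
        intro v hv
        have := hL v hv
        have := hunit v hv
        omega
      rcases W.eq_empty_or_nonempty with hWe | ⟨v, hv⟩
      · exfalso
        refine hno (fun _ => 0) ?_ ?_
        · intro v hv; rw [hWe] at hv; simp at hv
        · intro v hv; rw [hWe] at hv; simp at hv
      · obtain ⟨a, b, hab, habL⟩ := Finset.card_eq_two.1 (h2 v hv)
        rcases grow_start G W L hL v hv a (by rw [habL]; simp) with hc | hc
        · rcases grow_start G W L hL v hv b (by rw [habL]; simp) with hc' | hc'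
          · obtain ⟨K, T, hK, hKc, hT, hTc, hT1, hχ⟩ := hc
            obtain ⟨K', T', hK', hKc', hT', hTc', hT1', hχ'⟩ := hc'
            have hTe : ∀ s ∈ T, False := fun s hs => by
              have h3 := hT1 s hs
              have h4 := h2 s (hT hs)
              omega
            have hTe' : ∀ s ∈ T', False := fun s hs => by
              have h3 := hT1' s hs
              have h4 := h2 s (hT' hs)
              omega
            refine ⟨K ∪ K', ∅, ?_, ?_, by simp, by simp, by simp, ?_⟩
            · intro e he
              rcases Finset.mem_union.1 he with he | he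
              · exact hK e he
              · exact hK' e he
            · have := Finset.card_union_le K K'
              omega
            · intro χ hp hχ2 _
              have h5 := hχ2 v hv (h2 v hv)
              rw [habL, Finset.mem_insert, Finset.mem_singleton] at h5
              rcases h5 with h5 | h5
              · exact hχ χ (hp.mono Finset.subset_union_left) h5 hχ2
                  (fun s hs => (hTe s hs).elim)
              · exact hχ' χ (hp.mono Finset.subset_union_right) h5 hχ2
                  (fun s hs => (hTe' s hs).elim)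
          · exact red v hv hc'
        · exact red v hv hc

end Pool.Agent.Helper18.Crit
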