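import Mathlib
import Pool.Agent.Helper18.Crit.Core

set_option autoImplicit false

/-!
# Sparse witnesses of non-3-colourability in graphs of large minimum degree
-/

namespace Pool.Agent.Helper18.Crit

open Finset

variable {V : Type*} [Fintype V] [DecidableEq V]

/-- A witness with at most `m` edges of the fact that `G` has no colouring from the lists `L`. -/
def Bad (G : SimpleGraph V) (m : ℕ) (L : V → Finset (Fin 3)) : Prop :=
  ∃ K : Finset (Sym2 V), (∀ e ∈ K, e ∈ G.edgeSet) ∧ K.card ≤ m ∧
    ∀ χ : V → Fin 3, (∀ v, χ v ∈ L v) → ¬ PropOn K χ

omit [Fintype V] [DecidableEq V] in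
theorem Bad.mono {G : SimpleGraph V} {m m' : ℕ} {L : V → Finset (Fin 3)} (h : Bad G m L)
    (hm : m ≤ m') : Bad G m' L := by
  obtain ⟨K, h1, h2, h3⟩ := h
  exact ⟨K, h1, h2.trans hm, h3⟩

/-- The growth of the number of nodes. -/
def nodes : ℕ → ℕ
  | 0 => 0
  | k + 1 => 1 + 4 * nodes k

theorem three_nodes (k : ℕ) : 3 * nodes k + 1 = 4 ^ k := by
  induction k with
  | zero => rfl
  | succ k ih => rw [nodes, pow_succ, ← ih]; ring

/-- The lists after giving the colour `b` to `t`. -/
noncomputable def child (G : SimpleGraph V) [DecidableRel G.Adj] (L : V → Finset (Fin 3)) (t : V)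
    (b : Fin 3) : V → Finset (Fin 3) :=
  fun u => if u = t then {b} else if G.Adj t u then (L u).erase b else L u

/-- total size of the lists -/
def total (L : V → Finset (Fin 3)) : ℕ := ∑ v, (L v).card

omit [DecidableEq V] in
theorem total_le (L : V → Finset (Fin 3)) : total L ≤ 3 * Fintype.card V := by
  unfold total
  have : ∀ v ∈ (univ : Finset V), (L v).card ≤ 3 := fun v _ => by
    have := Finset.card_le_univ (L v)
    simpa using this
  have := Finset.sum_le_card_nsmul _ _ _ this
  simpa [mul_comm] using this

theorem total_child (G : SimpleGraph V) [DecidableRel G.Adj] (L : V → Finset (Fin 3)) (t : V)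
    (b : Fin 3) (ht : 1 ≤ (L t).card) :
    total (child G L t b) + ((G.neighborFinset t).filter (fun u => b ∈ L u)).card ≤ total L := by
  have h1 : ((G.neighborFinset t).filter (fun u => b ∈ L u)).card =
      ∑ u, if G.Adj t u ∧ b ∈ L u then 1 else 0 := by
    rw [← Finset.card_filter]
    congr 1
    ext u
    simp
  unfold total
  rw [h1, ← Finset.sum_add_distrib]
  refine Finset.sum_le_sum fun u _ => ?_
  unfold child
  by_cases hut : u = t
  · subst hut
    simp only [if_true, SimpleGraph.irrefl, false_and, if_false, Finset.card_singleton]
    exact ht
  · by_cases hadj : G.Adj t u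
    · by_cases hb : b ∈ L u
      · simp only [hut, hadj, hb, and_self, if_true, if_false]
        rw [Finset.card_erase_of_mem hb]
        have : 0 < (L u).card := Finset.card_pos.2 ⟨b, hb⟩
        omega
      · simp only [hut, hadj, hb, and_false, if_true, if_false]
        rw [Finset.erase_eq_of_notMem hb]
        omega
    · simp only [hut, hadj, false_and, if_false]
      omega

/-- The star of `t`. -/
noncomputable def star (G : SimpleGraph V) [DecidableRel G.Adj] (t : V) : Finset (Sym2 V) :=
  (G.neighborFinset t).image (fun u => s(t, u))

theorem star_card_le (G : SimpleGraph V) [DecidableRel G.Adj] (t : V) :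
    (star G t).card ≤ Fintype.card V :=
  Finset.card_image_le.trans (Finset.card_le_univ _)

theorem star_sub (G : SimpleGraph V) [DecidableRel G.Adj] (t : V) :
    ∀ e ∈ star G t, e ∈ G.edgeSet := by
  intro e he
  obtain ⟨u, hu, rfl⟩ := Finset.mem_image.1 he
  rw [SimpleGraph.mem_neighborFinset] at hu
  exact hu

/-- The main recursion. -/
theorem tree (G : SimpleGraph V) [DecidableRel G.Adj] (d h : ℕ) (hh : 2 * h ≤ d + 1)
    (h1 : 1 ≤ h) (hdeg : ∀ v, d ≤ G.degree v)
    (hG : ∀ χ : V → Fin 3, ¬ ∀ u w, G.Adj u w → χ u ≠ χ w) :
    ∀ (s : ℕ) (L : V → Finset (Fin 3)), total L = s → ∀ k, s < k * h →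
      Bad G (s + (18 * Fintype.card V + 2) * nodes k) L := by
  intro s
  induction s using Nat.strong_induction_on with
  | _ s ih =>
    intro L hLs k hk
    set n := Fintype.card V with hn
    -- an empty list
    by_cases hemp : ∃ v, L v = ∅
    · obtain ⟨v, hv⟩ := hemp
      refine ⟨∅, by simp, by simp, ?_⟩
      intro χ hχ
      have := hχ v
      rw [hv] at this
      exact absurd this (Finset.notMem_empty _)
    push Not at hemp
    have hpos : ∀ v, 1 ≤ (L v).card := fun v => Finset.card_pos.2 (Finset.nonempty_iff_ne_empty.2 (hemp v).ne_empty)
    -- a unit vertex with a neighbour which has its colour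
    by_cases hunit : ∃ u w a, G.Adj u w ∧ L u = {a} ∧ a ∈ L w
    · obtain ⟨u, w, a, huw, hu, ha⟩ := hunit
      set L' : V → Finset (Fin 3) := Function.update L w ((L w).erase a) with hL'
      have htot : total L' + 1 = total L := by
        unfold total
        rw [← Finset.add_sum_erase _ _ (Finset.mem_univ w),
          ← Finset.add_sum_erase _ (fun v => (L v).card) (Finset.mem_univ w)]
        have h2 : ∑ x ∈ univ.erase w, (L' x).card = ∑ x ∈ univ.erase w, (L x).card := by
          refine Finset.sum_congr rfl fun x hx => ?_
          rw [hL', Function.update_of_ne (Finset.ne_of_mem_erase hx)]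
        rw [h2, hL', Function.update_self, Finset.card_erase_of_mem ha]
        have := hpos w
        omega
      obtain ⟨K, hK, hKc, hχ⟩ := ih (total L') (by omega) L' rfl k (by omega)
      refine ⟨insert s(u, w) K, ?_, ?_, ?_⟩
      · intro e he
        rcases Finset.mem_insert.1 he with rfl | he
        · exact huw
        · exact hK e he
      · have := Finset.card_insert_le s(u, w) K
        omega
      · intro χ hχL hp
        refine hχ χ ?_ (hp.mono (Finset.subset_insert _ _))
        intro v
        by_cases hvw : v = w
        · subst hvw
          rw [hL', Function.update_self, Finset.mem_erase]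
          refine ⟨?_, hχL v⟩
          intro h3
          have h4 := hχL u
          rw [hu, Finset.mem_singleton] at h4
          exact hp u v (Finset.mem_insert_self _ _) (by rw [h4, h3])
        · rw [hL', Function.update_of_ne hvw]
          exact hχL v
    · push Not at hunit
      -- the expensive colours
      have hexp : ∀ t, (L t).card = 3 → ∃ a : Fin 3, ∀ b, b ≠ a →
          h ≤ ((G.neighborFinset t).filter (fun u => b ∈ L u)).card := by
        intro t ht
        by_contra hcon
        push Not at hcon
        obtain ⟨b, _, hb⟩ := hcon 0
        obtain ⟨c, hcb, hc⟩ := hcon b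
        have hcov : G.neighborFinset t ⊆
            (G.neighborFinset t).filter (fun u => b ∈ L u) ∪
            (G.neighborFinset t).filter (fun u => c ∈ L u) := by
          intro u hu
          rw [Finset.mem_union, Finset.mem_filter, Finset.mem_filter]
          by_contra hno
          push Not at hno
          have hb' := hno.1 hu
          have hc' := hno.2 hu
          have hsub : L u ⊆ (univ.erase b).erase c := by
            intro x hx
            rw [Finset.mem_erase, Finset.mem_erase]
            exact ⟨fun h => hc' (h ▸ hx), fun h => hb' (h ▸ hx), Finset.mem_univ x⟩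
          have hcard : ((univ.erase b).erase c : Finset (Fin 3)).card = 1 := by
            rw [Finset.card_erase_of_mem, Finset.card_erase_of_mem (Finset.mem_univ b)]
            · simp
            · rw [Finset.mem_erase]; exact ⟨hcb, Finset.mem_univ c⟩
          have hLu : (L u).card = 1 := le_antisymm (hcard ▸ Finset.card_le_card hsub) (hpos u)
          obtain ⟨a, ha⟩ := Finset.card_eq_one.1 hLu
          have htu : L t = univ := Finset.eq_univ_of_card _ (by simpa using ht)
          rw [SimpleGraph.mem_neighborFinset] at hu
          exact hunit u t a hu.symm ha (by rw [htu]; exact Finset.mem_univ a)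
        have h3 := Finset.card_le_card hcov
        have h4 := Finset.card_union_le ((G.neighborFinset t).filter (fun u => b ∈ L u))
          ((G.neighborFinset t).filter (fun u => c ∈ L u))
        have h5 := hdeg t
        rw [← SimpleGraph.card_neighborFinset_eq_degree] at h5
        omega
      choose! df hdf using hexp
      -- the default lists
      set L' : V → Finset (Fin 3) := fun v => if (L v).card = 3 then {df v} else L v with hL'
      have hcard3 : ∀ v, (L v).card ≤ 3 := fun v => by
        have := Finset.card_le_univ (L v)
        simpa using this
      have hL'c : ∀ v ∈ (univ : Finset V), 1 ≤ (L' v).card ∧ (L' v).card ≤ 2 := by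
        intro v _
        by_cases hv : (L v).card = 3
        · simp [hL', hv]
        · have := hcard3 v
          have := hpos v
          simp only [hL', hv, if_false]
          omega
      obtain ⟨K, T, hK, hKc, _, hTc, hT1, hχ⟩ := core G L' (univ : Finset V).card univ rfl hL'c (by
        intro α _ hα
        exact hG α fun u w huw => hα u (mem_univ _) w (mem_univ _) huw)
      -- the children
      have hk1 : 1 ≤ k := by
        rcases Nat.eq_zero_or_pos k with h0 | h0
        · rw [h0] at hk; simp at hk
        · exact h0
      obtain ⟨k', rfl⟩ : ∃ k', k = k' + 1 := ⟨k - 1, by omega⟩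
      have hch : ∀ t, (L t).card = 3 → ∀ b, b ≠ df t →
          Bad G (3 * n + (18 * n + 2) * nodes k') (child G L t b) := by
        intro t ht b hb
        have h2 := total_child G L t b (hpos t)
        have h3 := hdf t ht b hb
        have h4 : total (child G L t b) < k' * h := by
          have : s < (k' + 1) * h := hk
          rw [Nat.add_mul, Nat.one_mul] at this
          omega
        have h5 := ih (total (child G L t b)) (by omega) (child G L t b) rfl k' h4
        refine h5.mono ?_
        have := total_le (child G L t b)
        omega
      have hch' : ∀ t b, ∃ Kc : Finset (Sym2 V), (∀ e ∈ Kc, e ∈ G.edgeSet) ∧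
          Kc.card ≤ 4 * n + (18 * n + 2) * nodes k' ∧ ((L t).card = 3 → b ≠ df t →
            ∀ χ : V → Fin 3, (∀ v, χ v ∈ L v) → χ t = b → ¬ PropOn Kc χ) := by
        intro t b
        by_cases hc : (L t).card = 3 ∧ b ≠ df t
        · obtain ⟨Kc, h2, h3, h4⟩ := hch t hc.1 b hc.2
          refine ⟨Kc ∪ star G t, ?_, ?_, ?_⟩
          · intro e he
            rcases Finset.mem_union.1 he with he | he
            · exact h2 e he
            · exact star_sub G t e he
          · have h5 := Finset.card_union_le Kc (star G t)
            have h6 := star_card_le G t
            omega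
          · intro _ _ χ hχL hχt hp
            refine h4 χ ?_ (hp.mono Finset.subset_union_left)
            intro v
            unfold child
            by_cases hvt : v = t
            · subst hvt
              simp only [if_true, Finset.mem_singleton]
              exact hχt
            · by_cases hadj : G.Adj t v
              · simp only [hvt, hadj, if_true, if_false, Finset.mem_erase]
                refine ⟨?_, hχL v⟩
                intro h7
                refine hp t v (Finset.mem_union_right _ ?_) (by rw [hχt, h7])
                exact Finset.mem_image.2 ⟨v, by rwa [SimpleGraph.mem_neighborFinset], rfl⟩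
              · simp only [hvt, hadj, if_false]
                exact hχL v
        · refine ⟨∅, by simp, by simp, ?_⟩
          intro h2 h3
          exact absurd ⟨h2, h3⟩ hc
      choose Kc hKc1 hKc2 hKc3 using hch'
      -- the union
      refine ⟨K ∪ T.biUnion (fun t => (univ.erase (df t)).biUnion (fun b => Kc t b)), ?_, ?_, ?_⟩
      · intro e he
        rcases Finset.mem_union.1 he with he | he
        · exact hK e he
        · obtain ⟨t, _, he⟩ := Finset.mem_biUnion.1 he
          obtain ⟨b, _, he⟩ := Finset.mem_biUnion.1 he
          exact hKc1 t b e he
      · have h2 : ∀ t ∈ T, ((univ.erase (df t)).biUnion (fun b => Kc t b)).card ≤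
            2 * (4 * n + (18 * n + 2) * nodes k') := by
          intro t _
          have h3 := Finset.card_biUnion_le_card_mul (univ.erase (df t)) (fun b => Kc t b)
            (4 * n + (18 * n + 2) * nodes k') (fun b _ => hKc2 t b)
          rw [Finset.card_erase_of_mem (Finset.mem_univ _)] at h3
          simpa using h3
        have h4 := Finset.card_biUnion_le_card_mul T
          (fun t => (univ.erase (df t)).biUnion (fun b => Kc t b)) _ h2
        have h5 : T.card * (2 * (4 * n + (18 * n + 2) * nodes k')) ≤
            2 * (2 * (4 * n + (18 * n + 2) * nodes k')) := Nat.mul_le_mul_right _ hTc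
        have h6 := Finset.card_union_le K
          (T.biUnion (fun t => (univ.erase (df t)).biUnion (fun b => Kc t b)))
        rw [Finset.card_univ, ← hn] at hKc
        have h7 : (18 * n + 2) * nodes (k' + 1) =
            (18 * n + 2) + 4 * ((18 * n + 2) * nodes k') := by
          rw [nodes]; ring
        rw [h7]
        omega
      · intro χ hχL hp
        have hpK : PropOn K χ := hp.mono Finset.subset_union_left
        refine hχ χ hpK ?_ ?_
        · intro u _ hu2
          by_cases hu3 : (L u).card = 3
          · simp [hL', hu3] at hu2
          · simp only [hL', hu3, if_false]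
            exact hχL u
        · intro t ht
          by_cases ht3 : (L t).card = 3
          · simp only [hL', ht3, if_true, Finset.mem_singleton]
            by_contra hne
            refine hKc3 t (χ t) ht3 hne χ hχL rfl (hp.mono ?_)
            intro e he
            refine Finset.mem_union_right _ (Finset.mem_biUnion.2 ⟨t, ht, ?_⟩)
            exact Finset.mem_biUnion.2 ⟨χ t, Finset.mem_erase.2 ⟨hne, Finset.mem_univ _⟩, he⟩
          · simp only [hL', ht3, if_false]
            exact hχL t

end Pool.Agent.Helper18.Crit
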