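import Mathlib
import Pool.Agent.Helper18.Crit.Tree
import Pool.Agent.Helper53.CritDefs

set_option autoImplicit false

/-!
# The minimum degree of 4-critical graphs
-/

namespace Pool.Agent.Helper18.Crit

open Finset Pool.Agent.Helper53.Crit

variable {V : Type*} [Fintype V] [DecidableEq V]

omit [Fintype V] [DecidableEq V] in
/-- A graph which is not 3-colourable has no proper map to `Fin 3`. -/
theorem no_col {G : SimpleGraph V} (h : G.chromaticNumber = 4) :
    ∀ χ : V → Fin 3, ¬ ∀ u w, G.Adj u w → χ u ≠ χ w := by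
  intro χ hχ
  have h1 : G.Colorable 3 := ⟨SimpleGraph.Coloring.mk χ (fun {u w} huw => hχ u w huw)⟩
  have h2 := h1.chromaticNumber_le
  rw [h] at h2
  exact absurd h2 (by norm_num)

omit [Fintype V] [DecidableEq V] in
/-- Deleting an edge of a 4-critical graph makes it 3-colourable. -/
theorem del_col {G : SimpleGraph V} (h : IsCritical 4 G) {e : Sym2 V} (he : e ∈ G.edgeSet) :
    ∃ χ : V → Fin 3, ∀ u w, G.Adj u w → s(u, w) ≠ e → χ u ≠ χ w := by
  set H : G.Subgraph :=
    { verts := Set.univ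
      Adj := fun u w => G.Adj u w ∧ s(u, w) ≠ e
      adj_sub := fun h => h.1
      edge_vert := fun _ => Set.mem_univ _
      symm := ⟨fun u w h => ⟨h.1.symm, by rw [Sym2.eq_swap]; exact h.2⟩⟩ } with hH
  have hne : H ≠ ⊤ := by
    intro hcon
    induction e using Sym2.ind with
    | _ x y =>
      have h1 : (⊤ : G.Subgraph).Adj x y := he
      rw [← hcon] at h1
      exact h1.2 rfl
  have h1 := h.2 H hne
  have h2 : H.coe.chromaticNumber ≤ 3 := by
    have : H.coe.chromaticNumber < ((3 : ℕ) + 1 : ℕ) := by exact_mod_cast h1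
    exact_mod_cast Order.le_of_lt_add_one (by exact_mod_cast this)
  have h3 : H.coe.Colorable 3 := SimpleGraph.chromaticNumber_le_iff_colorable.1 h2
  obtain ⟨C⟩ := h3
  refine ⟨fun v => C ⟨v, Set.mem_univ v⟩, ?_⟩
  intro u w huw hne'
  exact C.valid (v := ⟨u, Set.mem_univ u⟩) (w := ⟨w, Set.mem_univ w⟩) ⟨huw, hne'⟩

/-- A 4-critical graph has few edges. -/
theorem edges_le {G : SimpleGraph V} [DecidableRel G.Adj] (hG : IsCritical 4 G) (d h : ℕ)
    (hh : 2 * h ≤ d + 1) (h1 : 1 ≤ h) (hdeg : ∀ v, d ≤ G.degree v) (k : ℕ)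
    (hk : 3 * Fintype.card V < k * h) :
    G.edgeFinset.card ≤ 3 * Fintype.card V + (18 * Fintype.card V + 2) * nodes k := by
  have hu : total (fun _ : V => (univ : Finset (Fin 3))) = 3 * Fintype.card V := by
    unfold total
    simp [mul_comm]
  obtain ⟨K, hK, hKc, hχ⟩ := tree G d h hh h1 hdeg (no_col hG.1) (3 * Fintype.card V)
    (fun _ => univ) hu k hk
  refine le_trans (Finset.card_le_card ?_) hKc
  intro e he
  rw [SimpleGraph.mem_edgeFinset] at he
  by_contra hn
  obtain ⟨χ, hc⟩ := del_col hG he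
  refine hχ χ (fun _ => Finset.mem_univ _) ?_
  intro u w huw
  exact hc u w (hK _ huw) (fun h => hn (h ▸ huw))

theorem degree_bound {G : SimpleGraph V} [DecidableRel G.Adj] (hG : IsCritical 4 G) (d : ℕ)
    (h1 : 1 ≤ d) (hn : 1 ≤ Fintype.card V) (hdeg : ∀ v, d ≤ G.degree v) :
    d ≤ 15 * 4 ^ (6 * Fintype.card V / d + 1) := by
  set n := Fintype.card V with hnn
  have hd0 : 0 < d := h1
  set k := 6 * n / d + 1 with hk
  have hkh : 3 * n < k * ((d + 1) / 2) := by
    have h3 : 6 * n < k * d := by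
      rw [hk, Nat.mul_comm (6 * n / d + 1) d]
      exact Nat.lt_mul_div_succ (6 * n) hd0
    have h4 : d ≤ 2 * ((d + 1) / 2) := by omega
    have h5 : k * d ≤ k * (2 * ((d + 1) / 2)) := Nat.mul_le_mul_left _ h4
    have h6 : k * (2 * ((d + 1) / 2)) = 2 * (k * ((d + 1) / 2)) := by ring
    omega
  have h2 := edges_le hG d ((d + 1) / 2) (by omega) (by omega) hdeg k hkh
  have h3 : n * d ≤ 2 * G.edgeFinset.card := by
    rw [← SimpleGraph.sum_degrees_eq_twice_card_edges]
    have := Finset.card_nsmul_le_sum (univ : Finset V) (fun v => G.degree v) d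
      (fun v _ => hdeg v)
    simpa using this
  have h4 := three_nodes k
  have hk1 : 4 ≤ 4 ^ k := by
    calc 4 = 4 ^ 1 := by norm_num
      _ ≤ 4 ^ k := Nat.pow_le_pow_right (by norm_num) (by rw [hk]; exact Nat.le_add_left 1 _)
  rw [← hnn] at h2
  -- n d ≤ 6 n + (36 n + 4) nodes k
  have h5 : n * d ≤ 6 * n + (36 * n + 4) * nodes k := by nlinarith
  have h6 : 3 * (n * d) ≤ 18 * n + (36 * n + 4) * (3 * nodes k) := by nlinarith
  have h7 : 3 * nodes k ≤ 4 ^ k := by omega
  have h8 : (36 * n + 4) * (3 * nodes k) ≤ (40 * n) * 4 ^ k := Nat.mul_le_mul (by omega) h7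
  have h9 : 18 * n ≤ 5 * n * 4 ^ k := by nlinarith
  have h10 : 3 * (n * d) ≤ 3 * (n * (15 * 4 ^ k)) := by nlinarith
  have h11 : n * d ≤ n * (15 * 4 ^ k) := by omega
  exact Nat.le_of_mul_le_mul_left h11 (by omega)

/-- `δ log n ≤ 25 n`. -/
theorem log_bound (n d : ℕ) (hd : 1 ≤ d) (hdn : d ≤ n) (h : d ≤ 15 * 4 ^ (6 * n / d + 1)) :
    (d : ℝ) * Real.log n ≤ 25 * n := by
  have hd' : (1 : ℝ) ≤ d := by exact_mod_cast hd
  have hdn' : (d : ℝ) ≤ n := by exact_mod_cast hdn
  have hn' : (1 : ℝ) ≤ n := le_trans hd' hdn'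
  have hlogn : 0 ≤ Real.log n := Real.log_nonneg hn'
  have hlogd : 0 ≤ Real.log d := Real.log_nonneg hd'
  -- log d ≤ log 60 + (6 n / d) log 4
  have h1 : Real.log d ≤ Real.log 60 + 6 * n / d * Real.log 4 := by
    have h2 : (d : ℝ) ≤ 15 * 4 ^ (6 * n / d + 1) := by exact_mod_cast h
    have h3 : (15 : ℝ) * 4 ^ (6 * n / d + 1) = 60 * 4 ^ (6 * n / d) := by rw [pow_succ]; ring
    rw [h3] at h2
    have h4 := Real.log_le_log (by linarith) h2
    rw [Real.log_mul (by norm_num) (by positivity), Real.log_pow] at h4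
    have h5 : ((6 * n / d : ℕ) : ℝ) ≤ 6 * n / d := by
      have := @Nat.cast_div_le ℝ _ _ _ (6 * n) d
      push_cast at this
      exact this
    have h6 : 0 ≤ Real.log 4 := Real.log_nonneg (by norm_num)
    nlinarith
  have h2 : (d : ℝ) * Real.log d ≤ d * Real.log 60 + 6 * n * Real.log 4 := by
    have h3 := mul_le_mul_of_nonneg_left h1 (by linarith : (0 : ℝ) ≤ d)
    have h4 : (d : ℝ) * (Real.log 60 + 6 * n / d * Real.log 4) =
        d * Real.log 60 + 6 * n * Real.log 4 := by
      field_simp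
    linarith
  have hl2 : Real.log 2 < 0.6931471808 := Real.log_two_lt_d9
  have h4 : Real.log 4 < 1.3863 := by
    have : Real.log 4 = 2 * Real.log 2 := by
      rw [show (4 : ℝ) = 2 ^ 2 by norm_num, Real.log_pow]; push_cast; ring
    linarith
  have h60 : Real.log 60 < 4.16 := by
    have h5 : Real.log 60 ≤ Real.log 64 := Real.log_le_log (by norm_num) (by norm_num)
    have h6 : Real.log 64 = 6 * Real.log 2 := by
      rw [show (64 : ℝ) = 2 ^ 6 by norm_num, Real.log_pow]; push_cast; ring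
    linarith
  have h60' : 0 ≤ Real.log 60 := Real.log_nonneg (by norm_num)
  have h4' : 0 ≤ Real.log 4 := Real.log_nonneg (by norm_num)
  have h3 : (d : ℝ) * Real.log d ≤ 12.5 * n := by nlinarith
  rcases le_total (Real.log n) (2 * Real.log d) with hc | hc
  · nlinarith
  · -- d ≤ sqrt n
    have hs : (d : ℝ) ^ 2 ≤ n := by
      have h5 : Real.log ((d : ℝ) ^ 2) ≤ Real.log n := by
        rw [Real.log_pow]; push_cast; exact hc
      exact (Real.log_le_log_iff (by positivity) (by linarith)).1 h5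
    have hs' : (d : ℝ) ≤ Real.sqrt n := Real.le_sqrt_of_sq_le hs
    have hsq : Real.sqrt n * Real.sqrt n = n := Real.mul_self_sqrt (by linarith)
    have hs0 : 0 < Real.sqrt n := Real.sqrt_pos.2 (by linarith)
    have hlog : Real.log n ≤ 2 * Real.sqrt n := by
      have h6 : Real.log (Real.sqrt n) ≤ Real.sqrt n - 1 := Real.log_le_sub_one_of_pos hs0
      have h7 : Real.log (Real.sqrt n) = Real.log n / 2 := Real.log_sqrt (by linarith)
      linarith
    have h8 : (d : ℝ) * Real.log n ≤ Real.sqrt n * (2 * Real.sqrt n) :=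
      mul_le_mul hs' hlog hlogn hs0.le
    nlinarith

end Pool.Agent.Helper18.Crit
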